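import Pool.Agent.H40.ISH.Stmts

set_option linter.unusedVariables false

namespace Pool.ISH

open MeasureTheory Filter Topology
open scoped Classical Pointwise

/-- the vertical bonds of `S` below `x` -/
def belSet (S : Set Bond) (x : Site) : Set Bond :=
  {b : Bond | b ∈ S ∧ b.2 = 2 ∧ b.1 0 = x 0 ∧ b.1 1 = x 1 ∧ b.1 2 < x 2}

theorem mem_Bel_iff {S : Set Bond} {x : Site} : x ∈ Bel S ↔ Even (belSet S x).ncard := Iff.rfl

theorem site_ext {x y : Site} (h0 : x 0 = y 0) (h1 : x 1 = y 1) (h2 : x 2 = y 2) : x = y := by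
  funext i
  fin_cases i <;> assumption

theorem ev2_0 : ev 2 0 = 0 := ev_ne (by decide)
theorem ev2_1 : ev 2 1 = 0 := ev_ne (by decide)
theorem ev2_2 : ev 2 2 = 1 := ev_same 2

theorem belSet_up (S : Set Bond) (x : Site) :
    belSet S (x + ev 2) = belSet S x ∪ {b | b ∈ S ∧ b = (x, 2)} := by
  ext b
  obtain ⟨y, i⟩ := b
  simp only [belSet, Set.mem_ofPred_eq, Set.mem_union, Pi.add_apply, ev2_0, ev2_1, ev2_2, add_zero,
    Prod.mk.injEq]
  constructor
  · rintro ⟨h1, h2, h3, h4, h5⟩
    by_cases h : y 2 < x 2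
    · exact Or.inl ⟨h1, h2, h3, h4, h⟩
    · exact Or.inr ⟨h1, site_ext h3 h4 (by omega), h2⟩
  · rintro (⟨h1, h2, h3, h4, h5⟩ | ⟨h1, h2, h3⟩)
    · exact ⟨h1, h2, h3, h4, by omega⟩
    · subst h2
      exact ⟨h1, h3, rfl, rfl, by omega⟩

theorem bel_up {S : Set Bond} (hfin : ∀ x : Site, (belSet S x).Finite) (x : Site) :
    (x + ev 2 ∈ Bel S ↔ (x ∈ Bel S ↔ ((x, 2) : Bond) ∉ S)) := by
  rw [mem_Bel_iff, mem_Bel_iff]
  have h1 : Disjoint (belSet S x) {b | b ∈ S ∧ b = (x, 2)} := by
    rw [Set.disjoint_left]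
    rintro b hb ⟨_, hb2⟩
    subst hb2
    have := hb.2.2.2.2
    simp at this
  by_cases h : ((x, 2) : Bond) ∈ S
  · have h2 : {b : Bond | b ∈ S ∧ b = (x, 2)} = {(x, 2)} := by
      ext b
      simp only [Set.mem_ofPred_eq, Set.mem_singleton_iff]
      constructor
      · exact fun h => h.2
      · intro h3
        rw [h3]
        exact ⟨h, rfl⟩
    have h3 : (belSet S (x + ev 2)).ncard = (belSet S x).ncard + 1 := by
      rw [belSet_up, Set.ncard_union_eq h1 (hfin x) (by rw [h2]; exact Set.finite_singleton _), h2,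
        Set.ncard_singleton]
    rw [h3, Nat.even_add_one]
    tauto
  · have h2 : {b : Bond | b ∈ S ∧ b = (x, 2)} = ∅ := by
      ext b
      simp only [Set.mem_ofPred_eq, Set.mem_empty_iff_false, iff_false]
      rintro ⟨h3, h4⟩
      rw [h4] at h3
      exact h h3
    have h3 : (belSet S (x + ev 2)).ncard = (belSet S x).ncard := by
      rw [belSet_up, h2, Set.union_empty]
    rw [h3]
    tauto

theorem belSet_low {S : Set Bond} (hfin : ∀ x : Site, (belSet S x).Finite) (x : Site) :
    ∃ h₀ : ℤ, ∀ h ≤ h₀, belSet S (Function.update x 2 h) = ∅ := by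
  have hne : ((hfin x).toFinset.image (fun b => b.1 2) ∪ {x 2}).Nonempty :=
    ⟨x 2, Finset.mem_union_right _ (Finset.mem_singleton_self _)⟩
  refine ⟨((hfin x).toFinset.image (fun b => b.1 2) ∪ {x 2}).min' hne, fun h hh => ?_⟩
  rw [Set.eq_empty_iff_forall_notMem]
  rintro b ⟨h1, h2, h3, h4, h5⟩
  rw [Function.update_of_ne (by decide)] at h3 h4
  rw [Function.update_self] at h5
  have h6 : h ≤ x 2 := hh.trans (Finset.min'_le _ _
    (Finset.mem_union_right _ (Finset.mem_singleton_self _)))
  have h7 : b ∈ (hfin x).toFinset := by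
    rw [Set.Finite.mem_toFinset]
    exact ⟨h1, h2, h3, h4, by omega⟩
  have h8 := Finset.min'_le _ (b.1 2) (Finset.mem_union_left {x 2}
    (Finset.mem_image_of_mem (fun b : Bond => b.1 2) h7))
  omega

theorem update_add_ev2 (x : Site) (h : ℤ) :
    Function.update x 2 (h + 1) = Function.update x 2 h + ev 2 := by
  apply site_ext
  · rw [Pi.add_apply, ev2_0, Function.update_of_ne (by decide), Function.update_of_ne (by decide),
      add_zero]
  · rw [Pi.add_apply, ev2_1, Function.update_of_ne (by decide), Function.update_of_ne (by decide),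
      add_zero]
  · rw [Pi.add_apply, ev2_2, Function.update_self, Function.update_self]

theorem update_add_ev {i : Fin 3} (hi2 : i ≠ 2) (x : Site) (h : ℤ) :
    Function.update (x + ev i) 2 h = Function.update x 2 h + ev i := by
  funext k
  by_cases hk : k = 2
  · subst hk
    rw [Pi.add_apply, Function.update_self, Function.update_self, ev_ne (Ne.symm hi2), add_zero]
  · rw [Pi.add_apply, Function.update_of_ne hk, Function.update_of_ne hk, Pi.add_apply]

theorem bel_prop {A B V W H H2 : Prop} (s3 : (H ↔ H2) ↔ (V ↔ W)) (ih : B ↔ (A ↔ ¬ H)) :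
    ((B ↔ ¬ W) ↔ ((A ↔ ¬ V) ↔ ¬ H2)) := by
  by_cases A <;> by_cases B <;> by_cases V <;> by_cases W <;> by_cases H <;> by_cases H2 <;>
    simp_all

/-- BEL -/
theorem bel : BELStmt := by
  intro S hsq hfin hlow
  have hfin' : ∀ x : Site, (belSet S x).Finite := hfin
  have hor : ∀ i : Fin 3, i ≠ 2 → ∀ x : Site,
      (x + ev i ∈ Bel S ↔ (x ∈ Bel S ↔ ((x, i) : Bond) ∉ S)) := by
    intro i hi2 x
    obtain ⟨h₁, H1⟩ := belSet_low hfin' x
    obtain ⟨h₂, H2⟩ := belSet_low hfin' (x + ev i)
    obtain ⟨h₃, H3⟩ := hlow x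
    have base : ∀ h : ℤ, h ≤ min (min h₁ h₂) (h₃ - 1) →
        (Function.update x 2 h + ev i ∈ Bel S ↔ (Function.update x 2 h ∈ Bel S ↔
          ((Function.update x 2 h, i) : Bond) ∉ S)) := by
      intro h hh
      have a1 : h ≤ h₁ := by omega
      have a2 : h ≤ h₂ := by omega
      have a3 : h ≤ h₃ - 1 := by omega
      rw [← update_add_ev hi2, mem_Bel_iff, mem_Bel_iff, H1 h a1, H2 h a2]
      have a4 : ((Function.update x 2 h, i) : Bond) ∉ S := by
        intro h4
        have := H3 _ h4 hi2 (by simp) (by simp)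
        simp at this
        omega
      simp [a4]
    have all : ∀ h : ℤ, min (min h₁ h₂) (h₃ - 1) ≤ h →
        (Function.update x 2 h + ev i ∈ Bel S ↔ (Function.update x 2 h ∈ Bel S ↔
          ((Function.update x 2 h, i) : Bond) ∉ S)) := by
      intro h hh
      induction h, hh using Int.leInduction with
      | base => exact base _ (le_refl _)
      | succ h hh ih =>
        rw [update_add_ev2]
        have s1 := bel_up hfin' (Function.update x 2 h)
        have s2 := bel_up hfin' (Function.update x 2 h + ev i)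
        have s3 := hsq (Function.update x 2 h) i 2 hi2
        have e : Function.update x 2 h + ev 2 + ev i = Function.update x 2 h + ev i + ev 2 := by
          abel
        rw [e, s1, s2]
        exact bel_prop s3 ih
    have hx : Function.update x 2 (x 2) = x := Function.update_eq_self 2 x
    by_cases hh : min (min h₁ h₂) (h₃ - 1) ≤ x 2
    · have := all (x 2) hh
      rwa [hx] at this
    · have := base (x 2) (by omega)
      rwa [hx] at this
  ext b
  obtain ⟨x, i⟩ := b
  rw [mem_bd]
  show ¬ (x ∈ Bel S ↔ x + ev i ∈ Bel S) ↔ _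
  have h : (x + ev i ∈ Bel S ↔ (x ∈ Bel S ↔ ((x, i) : Bond) ∉ S)) := by
    by_cases hi2 : i = 2
    · subst hi2
      exact bel_up hfin' x
    · exact hor i hi2 x
  rw [h]
  tauto

end Pool.ISH
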