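import Pool.Agent.H40.ISH.Stmts

set_option linter.unusedVariables false

namespace Pool.ISH

open MeasureTheory Filter Topology
open scoped Classical Pointwise

theorem Vbar_sub {N : ℕ} {x : Site} (hx : x ∈ Vbar N) : x ∈ Qb 0 (N + 1) := by
  rw [mem_Qb]
  intro i
  simp only [Pi.zero_apply, sub_zero]
  push_cast
  rcases hx with h | ⟨j, h | h⟩
  · have := mem_Vb.1 h i
    linarith
  · have h1 := mem_Vb.1 h i
    have h2 := ev_le j i
    rw [Pi.add_apply, abs_le] at h1
    rw [abs_le]
    constructor <;> linarith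
  · have h1 := mem_Vb.1 h i
    have h2 := ev_le j i
    rw [Pi.sub_apply, abs_le] at h1
    rw [abs_le]
    constructor <;> linarith

/-- BLW -/
theorem blw (hT : TOPStmt) (hP : PLCStmt) (hG : GAMStmt) : BLWStmt := by
  intro N A hN
  have h2 : ∀ b : Bond, plaq b ⊆ Gamma N A ↔ b ∈ Gam N A ∧ lo b ∈ Vbar N ∧ hi b ∈ Vbar N := by
    intro b
    rw [hT N A hN]
    constructor
    · intro h
      have hfin : {b : Bond | b ∈ Gam N A ∧ lo b ∈ Vbar N ∧ hi b ∈ Vbar N}.Finite := by
        refine (Finset.finite_toSet ((Qb 0 (N + 1)) ×ˢ (Finset.univ : Finset (Fin 3)))).subset ?_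
        intro c hc
        simp only [Finset.coe_product, Finset.coe_univ, Set.mem_prod, Finset.mem_coe, Set.mem_univ,
          and_true]
        exact Vbar_sub hc.2.1
      have h3 := hP.2 hfin.toFinset b (by
        refine h.trans ?_
        intro y hy
        simp only [Set.mem_iUnion] at hy ⊢
        obtain ⟨c, hc, hy⟩ := hy
        exact ⟨c, (Set.Finite.mem_toFinset _).2 hc, hy⟩)
      exact (Set.Finite.mem_toFinset hfin).1 h3
    · intro h
      exact Set.subset_biUnion_of_mem (u := fun b => plaq b) h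
  refine ⟨?_, h2⟩
  obtain ⟨g1, g2, g3, g4⟩ := hG N A
  ext x
  by_cases hx : x ∈ Vb N
  · have hset : {b : Bond | plaq b ⊆ Gamma N A ∧ b.2 = 2 ∧ b.1 0 = x 0 ∧ b.1 1 = x 1 ∧ b.1 2 < x 2}
        = {b : Bond | b ∈ Gam N A ∧ b.2 = 2 ∧ b.1 0 = x 0 ∧ b.1 1 = x 1 ∧ b.1 2 < x 2} := by
      ext b
      simp only [Set.mem_ofPred_eq]
      rw [h2 b]
      constructor
      · rintro ⟨h3, h4⟩
        exact ⟨h3.1, h4⟩
      · rintro ⟨h3, h4, h5, h6, h7⟩
        refine ⟨⟨h3, ?_⟩, h4, h5, h6, h7⟩
        have hbd := g1 h3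
        rw [mem_bd] at hbd
        have hx' := mem_Vb.1 hx
        have x0 := abs_le.1 (hx' 0)
        have x1 := abs_le.1 (hx' 1)
        have x2 := abs_le.1 (hx' 2)
        have l0 : lo b 0 = x 0 := h5
        have l1 : lo b 1 = x 1 := h6
        have l2 : lo b 2 < x 2 := h7
        have u0 : hi b 0 = x 0 := by
          rw [hi_apply, h4, l0, ev_ne (by decide), add_zero]
        have u1 : hi b 1 = x 1 := by
          rw [hi_apply, h4, l1, ev_ne (by decide), add_zero]
        have u2 : hi b 2 = lo b 2 + 1 := by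
          rw [hi_apply, h4, ev_same]
        have hlow : -(N : ℤ) - 1 ≤ lo b 2 := by
          by_contra hc
          push Not at hc
          have o1 : lo b ∉ Vb N := by
            intro h
            have := abs_le.1 (mem_Vb.1 h 2)
            linarith
          have o2 : hi b ∉ Vb N := by
            intro h
            have := abs_le.1 (mem_Vb.1 h 2)
            linarith
          apply hbd
          have p1 : lo b ∈ Pl N A := Or.inr ⟨o1, by omega⟩
          have p2 : hi b ∈ Pl N A := Or.inr ⟨o2, by omega⟩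
          exact ⟨fun _ => p2, fun _ => p1⟩
        have hhi : hi b ∈ Vb N := by
          rw [mem_Vb]
          intro i
          rw [abs_le]
          fin_cases i
          · show -(N : ℤ) ≤ hi b 0 ∧ hi b 0 ≤ N
            rw [u0]; exact x0
          · show -(N : ℤ) ≤ hi b 1 ∧ hi b 1 ≤ N
            rw [u1]; exact x1
          · show -(N : ℤ) ≤ hi b 2 ∧ hi b 2 ≤ N
            rw [u2]; omega
        refine ⟨Or.inr ⟨2, Or.inl ?_⟩, Or.inl hhi⟩
        have : lo b + ev 2 = hi b := by
          rw [← h4]; rfl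
        rw [this]
        exact hhi
    show (x ∈ Vb N ∧ _) ∨ (x ∉ Vb N ∧ x 2 ≤ 0) ↔ _
    rw [hset]
    simp only [hx, true_and, not_true_eq_false, false_and, or_false]
    rfl
  · show (x ∈ Vb N ∧ _) ∨ (x ∉ Vb N ∧ x 2 ≤ 0) ↔ _
    rw [g3 x hx]
    simp only [hx, false_and, not_false_eq_true, true_and, false_or]

end Pool.ISH
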