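import Pool.Agent.H40.ISH.Stmts

set_option linter.unusedVariables false

namespace Pool.ISH

open MeasureTheory Filter Topology
open scoped Classical Pointwise

/-- the interiors of a set of contours -/
theorem eta_aux (hK : KOMStmt) (hI : INTStmt) (hS : SQEStmt) (N : ℕ) (A : Finset Site)
    (T : Finset (Finset Bond)) (hT : T ⊆ Ks N A) :
    ∃ F : Finset Site, F ⊆ Vb N ∧ (∀ b, b ∈ bd (F : Set Site) ↔ ∃ γ ∈ T, b ∈ γ) ∧
      F.card ≤ ∑ γ ∈ T, γ.card ^ 2 := by
  induction T using Finset.induction_on with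
  | empty =>
    refine ⟨∅, by simp, ?_, by simp⟩
    intro b
    simp [bd_empty]
  | insert γ T hγ ih =>
    obtain ⟨F, hF1, hF2, hF3⟩ := ih (fun x hx => hT (Finset.mem_insert_of_mem hx))
    have hγK : γ ∈ Ks N A := hT (Finset.mem_insert_self _ _)
    obtain ⟨k1, k2, k3⟩ := hK N A
    obtain ⟨g1, g2, g3, g4, g5, g6⟩ := k1 γ hγK
    obtain ⟨G, hG1, hG2, hG3⟩ := hI N γ g1 (hS (Pl N A) γ g3 g5) g6
    refine ⟨symmDiff G F, symmDiff_subset_Vb hG1 hF1, ?_, ?_⟩
    · intro b
      have h1 : ((symmDiff G F : Finset Site) : Set Site) = symmDiff (G : Set Site) (F : Set Site) := by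
        ext x
        simp [Set.mem_symmDiff]
      rw [h1, bd_symmDiff, hG2, Set.mem_symmDiff, hF2 b, Finset.mem_coe]
      have hdis : b ∈ γ → ¬ ∃ γ' ∈ T, b ∈ γ' := by
        rintro hb ⟨γ', h2, h3⟩
        have hne : γ ≠ γ' := by
          rintro rfl
          exact hγ h2
        exact Finset.disjoint_left.1 (k2 γ hγK γ' (hT (Finset.mem_insert_of_mem h2)) hne) hb h3
      constructor
      · rintro (h | h)
        · exact ⟨γ, Finset.mem_insert_self _ _, h.1⟩
        · obtain ⟨⟨γ', h2, h3⟩, _⟩ := h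
          exact ⟨γ', Finset.mem_insert_of_mem h2, h3⟩
      · rintro ⟨γ', h2, h3⟩
        rcases Finset.mem_insert.1 h2 with h4 | h4
        · rw [h4] at h3
          exact Or.inl ⟨h3, hdis h3⟩
        · exact Or.inr ⟨⟨γ', h4, h3⟩, fun h5 => hdis h5 ⟨γ', h4, h3⟩⟩
    · rw [Finset.sum_insert hγ]
      have h2 : (symmDiff G F).card ≤ G.card + F.card := by
        refine (Finset.card_le_card ?_).trans (Finset.card_union_le G F)
        intro x hx
        rw [Finset.mem_symmDiff] at hx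
        rw [Finset.mem_union]
        rcases hx with h | h
        · exact Or.inl h.1
        · exact Or.inr h.1
      omega

/-- ETA -/
theorem eta (hG : GAMStmt) (hK : KOMStmt) (hI : INTStmt) (hS : SQEStmt) : ETAStmt := by
  intro N A hA
  obtain ⟨F, hF1, hF2, hF3⟩ := eta_aux hK hI hS N A
    ((Ks N A).filter (fun γ => γ.card < Lg N)) (Finset.filter_subset _ _)
  obtain ⟨k1, k2, k3⟩ := hK N A
  refine ⟨symmDiff A F, symmDiff_subset_Vb hA hF1, ?_, ?_⟩
  · have : symmDiff A (symmDiff A F) = F := by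
      rw [← symmDiff_assoc, symmDiff_self, bot_symmDiff]
    rw [this]
    exact hF3
  · have h1 : (BV N).filter (fun b => b ∈ bd (Pl N (symmDiff A F))) =
        (BV N).filter (fun b => b ∈ Gam N A) ∪
          ((Ks N A).filter (fun γ => Lg N ≤ γ.card)).biUnion id := by
      ext b
      rw [Pl_symmDiff hF1, bd_symmDiff]
      simp only [Finset.mem_filter, Finset.mem_union, Finset.mem_biUnion, Set.mem_symmDiff, id]
      rw [hF2 b]
      constructor
      · rintro ⟨hb, h | h⟩
        · by_cases hg : b ∈ Gam N A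
          · exact Or.inl ⟨hb, hg⟩
          · right
            obtain ⟨γ, h2, h3⟩ := k3 b h.1 hg
            refine ⟨γ, ⟨h2, ?_⟩, h3⟩
            by_contra h4
            exact h.2 ⟨γ, Finset.mem_filter.2 ⟨h2, by omega⟩, h3⟩
        · obtain ⟨⟨γ, h2, h3⟩, h4⟩ := h
          exact absurd ((k1 γ (Finset.mem_filter.1 h2).1).2.2.1 h3) h4
      · rintro (⟨hb, hg⟩ | ⟨γ, ⟨h2, h3⟩, h4⟩)
        · refine ⟨hb, Or.inl ⟨(hG N A).1 hg, ?_⟩⟩
          rintro ⟨γ, h2, h3⟩
          exact (k1 γ (Finset.mem_filter.1 h2).1).2.2.2.1 b h3 hg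
        · obtain ⟨g1, g2, g3, g4, g5, g6⟩ := k1 γ h2
          refine ⟨g1 h4, Or.inl ⟨g3 h4, ?_⟩⟩
          rintro ⟨γ', h5, h6⟩
          have h7 := Finset.mem_filter.1 h5
          have hne : γ ≠ γ' := by
            rintro rfl
            omega
          exact Finset.disjoint_left.1 (k2 γ h2 γ' h7.1 hne) h4 h6
    unfold en lg
    rw [h1, Finset.card_union_of_disjoint, Finset.card_biUnion]
    · rfl
    · intro γ h2 γ' h3 hne
      exact k2 γ (Finset.mem_filter.1 h2).1 γ' (Finset.mem_filter.1 h3).1 hne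
    · rw [Finset.disjoint_left]
      intro b h2 h3
      simp only [Finset.mem_filter, Finset.mem_biUnion, id] at h2 h3
      obtain ⟨γ, ⟨h4, h5⟩, h6⟩ := h3
      exact (k1 γ h4).2.2.2.1 b h6 h2.2

end Pool.ISH
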