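import Pool.Agent.H40.ISH.Stmts

set_option linter.unusedVariables false

namespace Pool.ISH

open MeasureTheory Filter Topology
open scoped Classical Pointwise

theorem BQ_mono (x : Site) {r s : ℕ} (h : r ≤ s) : BQ x r ⊆ BQ x s := by
  intro b hb
  rw [mem_BQ] at *
  exact ⟨Qb_mono x h hb.1, Qb_mono x h hb.2⟩

/-- a bond touching a bond in a cube is in the cube with the next half side -/
theorem BQ_tch {x : Site} {k : ℕ} {b c : Bond} (hb : b ∈ BQ x k) (h : Tch b c) :
    c ∈ BQ x (k + 1) := by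
  rw [mem_BQ, mem_Qb, mem_Qb] at *
  constructor
  · intro i
    have h1 := hb.1 i
    have h2 := h.1 i
    rw [abs_le] at *
    push_cast
    constructor <;> linarith
  · intro i
    have h1 := hb.1 i
    have h2 := h.2.1 i
    rw [abs_le] at *
    push_cast
    constructor <;> linarith

/-- bonds far away -/
theorem exists_far {D : Set Site} (hD : Cnn D) (x : Site) (k : ℕ) : ∃ b ∈ bd D, b ∉ BQ x k := by
  obtain ⟨b, hb, h1⟩ := hD.unb (k + ∑ i, (x i).natAbs)
  refine ⟨b, hb, fun h2 => h1 ?_⟩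
  rw [mem_BQ, mem_Qb] at h2
  rw [mem_Qb]
  intro i
  have h3 := h2.1 i
  have h4 : (x i).natAbs ≤ ∑ i, (x i).natAbs :=
    Finset.single_le_sum (f := fun i => (x i).natAbs) (fun _ _ => Nat.zero_le _) (Finset.mem_univ i)
  have h5 : ((x i).natAbs : ℤ) = |x i| := Int.natCast_natAbs (x i)
  have h6 : ((x i).natAbs : ℤ) ≤ ((∑ i, (x i).natAbs : ℕ) : ℤ) := by exact_mod_cast h4
  simp only [Pi.zero_apply, sub_zero]
  have h7 : |lo b i| ≤ |lo b i - x i| + |x i| := by
    have := abs_add_le (lo b i - x i) (x i)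
    simpa using this
  push_cast at h6 ⊢
  linarith

theorem start_mem {D : Set Site} {x : Site} (hx : Inc D x) : ∃ b ∈ bd D, b ∈ BQ x 1 := by
  obtain ⟨_, b, hb, h⟩ := hx
  refine ⟨b, hb, ?_⟩
  rw [mem_BQ]
  rcases h with h | h
  · constructor
    · rw [h]; exact self_mem_Qb x 1
    · rw [mem_Qb]
      intro i
      rw [← h]
      have := ev_le b.2 i
      rw [hi_apply, abs_le]
      push_cast
      constructor <;> linarith
  · constructor
    · rw [mem_Qb]
      intro i
      rw [← h]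
      have := ev_le b.2 i
      rw [hi_apply, abs_le]
      push_cast
      constructor <;> linarith
    · rw [h]; exact self_mem_Qb x 1

/-- bonds at every distance -/
theorem exists_level {D : Set Site} (hD : Cnn D) {x : Site} (hx : Inc D x) (k : ℕ) :
    ∃ b ∈ bd D, b ∈ BQ x (k + 1) ∧ b ∉ BQ x k := by
  obtain ⟨b₀, hb₀, h₀⟩ := start_mem hx
  obtain ⟨e, he, he'⟩ := exists_far hD x k
  have key : ∀ c, Rch (bd D) b₀ c → c ∈ BQ x k ∨ ∃ b ∈ bd D, b ∈ BQ x (k + 1) ∧ b ∉ BQ x k := by
    intro c hc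
    induction hc with
    | refl =>
      by_cases h : b₀ ∈ BQ x k
      · exact Or.inl h
      · exact Or.inr ⟨b₀, hb₀, BQ_mono x (by omega) h₀, h⟩
    | @tail d f h1 h2 ih =>
      rcases ih with ih | ih
      · by_cases h : f ∈ BQ x k
        · exact Or.inl h
        · exact Or.inr ⟨f, h2.2, BQ_tch ih h2.1, h⟩
      · exact Or.inr ih
  rcases key e (hD.conn b₀ hb₀ e he) with h | h
  · exact absurd h he'
  · exact h

/-- LEN -/
theorem len : LENStmt := by
  intro D hD x hx r
  have h := fun k => exists_level hD hx k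
  choose f hf1 hf2 hf3 using h
  have hinj : Set.InjOn f (Finset.range r : Finset ℕ) := by
    intro a ha b hb hab
    by_contra hne
    rcases lt_or_gt_of_ne hne with h | h
    · exact hf3 b (BQ_mono x (by omega) (hab ▸ hf2 a))
    · exact hf3 a (BQ_mono x (by omega) (hab.symm ▸ hf2 b))
  have h1 : (Finset.range r).card ≤ sf D x r := by
    unfold sf
    refine Finset.card_le_card_of_injOn f ?_ hinj
    intro k hk
    have hk' : k < r := by simpa using hk
    simp only [Finset.coe_filter, Set.mem_ofPred_eq]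
    exact ⟨BQ_mono x (by omega) (hf2 k), hf1 k⟩
  simpa using h1

/-- INR -/
theorem inr : INRStmt := by
  intro D hD x hx k
  obtain ⟨b, hb, h1, h2⟩ := exists_level hD hx k
  have hends : ∀ y, (y = lo b ∨ y = hi b) → (∀ i, |y i - x i| ≤ (k : ℤ) + 1) ∧
      ∃ i, (k : ℤ) ≤ |y i - x i| := by
    intro y hy
    rw [mem_BQ, mem_Qb, mem_Qb] at h1 h2
    constructor
    · intro i
      rcases hy with hy | hy
      · rw [hy]; exact_mod_cast h1.1 i
      · rw [hy]; exact_mod_cast h1.2 i
    · rw [not_and_or] at h2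
      rcases h2 with h2 | h2
      · push Not at h2
        obtain ⟨i, hi'⟩ := h2
        refine ⟨i, ?_⟩
        rcases hy with hy | hy
        · rw [hy]; exact hi'.le
        · rw [hy, hi_apply]
          have h3 := ev_le b.2 i
          rcases lt_abs.1 hi' with h4 | h4
          · exact le_abs.2 (Or.inl (by linarith))
          · exact le_abs.2 (Or.inr (by linarith))
      · push Not at h2
        obtain ⟨i, hi'⟩ := h2
        refine ⟨i, ?_⟩
        rcases hy with hy | hy
        · rw [hy]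
          rw [hi_apply] at hi'
          have h3 := ev_le b.2 i
          rcases lt_abs.1 hi' with h4 | h4
          · exact le_abs.2 (Or.inl (by linarith))
          · exact le_abs.2 (Or.inr (by linarith))
        · rw [hy]; exact hi'.le
  have hb' : ¬ (lo b ∈ D ↔ hi b ∈ D) := hb
  by_cases h : lo b ∈ D
  · obtain ⟨h3, h4⟩ := hends (lo b) (Or.inl rfl)
    exact ⟨lo b, ⟨h, b, hb, Or.inl rfl⟩, h3, h4⟩
  · have h' : hi b ∈ D := by
      by_contra h3
      exact hb' ⟨fun h4 => absurd h4 h, fun h4 => absurd h4 h3⟩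
    obtain ⟨h3, h4⟩ := hends (hi b) (Or.inr rfl)
    exact ⟨hi b, ⟨h', b, hb, Or.inr rfl⟩, h3, h4⟩

/-- RTG -/
theorem rtg : RTGStmt := by
  intro D hD x r
  have hloc : ∀ b ∈ BQ x r, (b ∈ bd (((Qb x r).filter (fun y => y ∈ D) : Finset Site) : Set Site) ↔
      b ∈ bd D) := by
    intro b hb
    rw [mem_BQ] at hb
    simp only [mem_bd, Finset.coe_filter, Set.mem_ofPred_eq, hb.1, hb.2, true_and]
  intro b hb hb1
  have hb2 : b ∈ bd D := (hloc b hb).1 hb1
  have hset : {a | a ∈ BQ x r ∧ a ∈ bd (((Qb x r).filter (fun y => y ∈ D) : Finset Site) :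
      Set Site)} = {a | a ∈ BQ x r ∧ a ∈ bd D} := by
    ext a
    simp only [Set.mem_ofPred_eq]
    exact ⟨fun h => ⟨h.1, (hloc a h.1).1 h.2⟩, fun h => ⟨h.1, (hloc a h.1).2 h.2⟩⟩
  rw [hset]
  obtain ⟨e, he, he'⟩ := exists_far hD x r
  have hr : 1 ≤ r := by
    by_contra h0
    have h1 : r = 0 := by omega
    subst h1
    rw [mem_BQ, mem_Qb, mem_Qb] at hb
    apply hi_ne_lo b
    funext i
    have h2 := hb.1 i
    have h3 := hb.2 i
    rw [abs_le] at h2 h3
    push_cast at h2 h3
    omega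
  have key : ∀ c, Rch (bd D) b c → (c ∈ BQ x r ∧ Rch {a | a ∈ BQ x r ∧ a ∈ bd D} b c) ∨
      ∃ c ∈ BQ x r, c ∉ BQ x (r - 1) ∧ c ∈ bd D ∧ Rch {a | a ∈ BQ x r ∧ a ∈ bd D} b c := by
    intro c hc
    induction hc with
    | refl => exact Or.inl ⟨hb, Relation.ReflTransGen.refl⟩
    | @tail d f h1 h2 ih =>
      rcases ih with ih | ih
      · by_cases h : f ∈ BQ x r
        · exact Or.inl ⟨h, ih.2.tail ⟨h2.1, h, h2.2⟩⟩
        · right
          refine ⟨d, ih.1, ?_, ?_, ih.2⟩
          · intro h3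
            have h4 := BQ_tch h3 h2.1
            rw [show r - 1 + 1 = r by omega] at h4
            exact h h4
          · exact Rch.mem h1 hb2
      · exact Or.inr ih
  rcases key e (hD.conn b hb2 e he) with h | ⟨c, h1, h2, h3, h4⟩
  · exact absurd h.1 he'
  · exact ⟨c, h1, h2, (hloc c h1).2 h3, Rch.symm h4 ⟨hb, hb2⟩⟩

end Pool.ISH
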