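import Pool.Agent.H40.ISH.Stmts

set_option linter.unusedVariables false

namespace Pool.ISH

open MeasureTheory Filter Topology
open scoped Classical Pointwise

theorem sqe_nr1 {x y z : Site} (hy : ∀ k, x k ≤ y k ∧ y k ≤ x k + 1)
    (hz : ∀ k, x k ≤ z k ∧ z k ≤ x k + 1) : Nr1 y z := by
  intro k
  have h1 := hy k
  have h2 := hz k
  rw [abs_le]
  constructor <;> linarith

theorem sqe_ev {i j : Fin 3} (hij : i ≠ j) (k : Fin 3) :
    0 ≤ ev i k ∧ 0 ≤ ev j k ∧ ev i k + ev j k ≤ 1 := by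
  by_cases h1 : k = i
  · subst h1
    rw [ev_same, ev_ne hij]
    omega
  · rw [ev_ne h1]
    have := ev_le j k
    omega

/-- SQE -/
theorem sqe : SQEStmt := by
  intro P S hS hcl x i j hij
  have hP : ∀ b ∈ S, ¬ (lo b ∈ P ↔ hi b ∈ P) := fun b hb => hS hb
  have e1 : hi ((x, i) : Bond) = x + ev i := rfl
  have e2 : hi ((x + ev j, i) : Bond) = x + ev j + ev i := rfl
  have e3 : hi ((x, j) : Bond) = x + ev j := rfl
  have e4 : hi ((x + ev i, j) : Bond) = x + ev j + ev i := by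
    show x + ev i + ev j = x + ev j + ev i
    abel
  have c0 : ∀ k, x k ≤ x k ∧ x k ≤ x k + 1 := fun k => by omega
  have c1 : ∀ k, x k ≤ (x + ev i) k ∧ (x + ev i) k ≤ x k + 1 := fun k => by
    have := sqe_ev hij k
    simp only [Pi.add_apply]
    omega
  have c2 : ∀ k, x k ≤ (x + ev j) k ∧ (x + ev j) k ≤ x k + 1 := fun k => by
    have := sqe_ev hij k
    simp only [Pi.add_apply]
    omega
  have c3 : ∀ k, x k ≤ (x + ev j + ev i) k ∧ (x + ev j + ev i) k ≤ x k + 1 := fun k => by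
    have := sqe_ev hij k
    simp only [Pi.add_apply]
    omega
  have key : ∀ b c : Bond, (∀ k, x k ≤ lo b k ∧ lo b k ≤ x k + 1) →
      (∀ k, x k ≤ hi b k ∧ hi b k ≤ x k + 1) → (∀ k, x k ≤ lo c k ∧ lo c k ≤ x k + 1) →
      (∀ k, x k ≤ hi c k ∧ hi c k ≤ x k + 1) → b ∈ S → (c ∈ S ↔ ¬ (lo c ∈ P ↔ hi c ∈ P)) := by
    intro b c h1 h2 h3 h4 hb
    constructor
    · exact hP c
    · intro h5
      exact hcl b hb c h5 ⟨sqe_nr1 h1 h3, sqe_nr1 h1 h4, sqe_nr1 h2 h3, sqe_nr1 h2 h4⟩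
  have l1 : ∀ k, x k ≤ lo ((x, i) : Bond) k ∧ lo ((x, i) : Bond) k ≤ x k + 1 := c0
  have l2 : ∀ k, x k ≤ lo ((x + ev j, i) : Bond) k ∧ lo ((x + ev j, i) : Bond) k ≤ x k + 1 := c2
  have l3 : ∀ k, x k ≤ lo ((x, j) : Bond) k ∧ lo ((x, j) : Bond) k ≤ x k + 1 := c0
  have l4 : ∀ k, x k ≤ lo ((x + ev i, j) : Bond) k ∧ lo ((x + ev i, j) : Bond) k ≤ x k + 1 := c1
  have u1 : ∀ k, x k ≤ hi ((x, i) : Bond) k ∧ hi ((x, i) : Bond) k ≤ x k + 1 := by
    rw [e1]; exact c1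
  have u2 : ∀ k, x k ≤ hi ((x + ev j, i) : Bond) k ∧ hi ((x + ev j, i) : Bond) k ≤ x k + 1 := by
    rw [e2]; exact c3
  have u3 : ∀ k, x k ≤ hi ((x, j) : Bond) k ∧ hi ((x, j) : Bond) k ≤ x k + 1 := by
    rw [e3]; exact c2
  have u4 : ∀ k, x k ≤ hi ((x + ev i, j) : Bond) k ∧ hi ((x + ev i, j) : Bond) k ≤ x k + 1 := by
    rw [e4]; exact c3
  by_cases h : ∃ b : Bond, b ∈ S ∧ (∀ k, x k ≤ lo b k ∧ lo b k ≤ x k + 1) ∧
      (∀ k, x k ≤ hi b k ∧ hi b k ≤ x k + 1)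
  · obtain ⟨b, hb, hb1, hb2⟩ := h
    rw [key b (x, i) hb1 hb2 l1 u1 hb, key b (x + ev j, i) hb1 hb2 l2 u2 hb,
      key b (x, j) hb1 hb2 l3 u3 hb, key b (x + ev i, j) hb1 hb2 l4 u4 hb, e1, e2, e3, e4]
    show (¬ (x ∈ P ↔ x + ev i ∈ P) ↔ ¬ (x + ev j ∈ P ↔ x + ev j + ev i ∈ P)) ↔
      (¬ (x ∈ P ↔ x + ev j ∈ P) ↔ ¬ (x + ev i ∈ P ↔ x + ev j + ev i ∈ P))
    tauto
  · push Not at h
    have n1 : ((x, i) : Bond) ∉ S := fun hb => by
      obtain ⟨k, hk⟩ := h _ hb l1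
      have := u1 k
      have := hk this.1
      omega
    have n2 : ((x + ev j, i) : Bond) ∉ S := fun hb => by
      obtain ⟨k, hk⟩ := h _ hb l2
      have := u2 k
      have := hk this.1
      omega
    have n3 : ((x, j) : Bond) ∉ S := fun hb => by
      obtain ⟨k, hk⟩ := h _ hb l3
      have := u3 k
      have := hk this.1
      omega
    have n4 : ((x + ev i, j) : Bond) ∉ S := fun hb => by
      obtain ⟨k, hk⟩ := h _ hb l4
      have := u4 k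
      have := hk this.1
      omega
    tauto

end Pool.ISH
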